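import Pool.Agent.Helper37_BSig.Stmts

/-!
# DerBI: derivations from `G ⊕ ω` for bi-immune `G` (MP_b3d4e2_lc)
-/

namespace Pool.Agent.BSig.H6

open Filter Cardinal

theorem der_mono {φ : (Fin 5 → MM) → Prop} {α α' k k' y F t : MM} (hα : α ≤ α') (hk : k ≤ k')
    (h : Der φ α k y F t) : Der φ α' k' y F t := by
  obtain ⟨K, hK, i, hi, P, hP, Q, hQ, w, hw, h1, h2, h3, h4, h5⟩ := h
  refine ⟨K, hK.trans hα, i, hi.trans hα, P, hP.trans hα, Q, hQ.trans hα, w, hw.trans hα, h1, h2,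
    h3, ?_, h5⟩
  intro x hx hxP
  obtain ⟨z, hz, h6⟩ := h4 x hx hxP
  refine ⟨z, hz, ?_⟩
  rcases h6 with h6 | ⟨h6, h7⟩
  · exact Or.inl h6
  · exact Or.inr ⟨h6, h7.trans hk⟩

theorem le_two_mul (x : MM) : x ≤ 2 * x := by
  rw [two_mul]; exact le_add_left' x x

theorem lit_true (x : MM) : lit (x, true) = 2 * x + 1 := by simp [lit]

theorem lit_false (x : MM) : lit (x, false) = 2 * x := by simp [lit]

theorem mem_LS_true {x F : MM} : (x, true) ∈ LS F ↔ Mem (2 * x + 1) F := by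
  show Mem (lit (x, true)) F ↔ _
  rw [lit_true]

theorem mem_LS_false {x F : MM} : (x, false) ∈ LS F ↔ Mem (2 * x) F := by
  show Mem (lit (x, false)) F ↔ _
  rw [lit_false]

theorem tr_iff {G : Set MM} {F : MM} : Tr G F ↔ LS F ⊆ gr G := by
  constructor
  · rintro h ⟨x, b⟩ hx
    cases b
    · rw [mem_LS_false] at hx
      have := (h x).2 hx
      simpa [gr] using this
    · rw [mem_LS_true] at hx
      have := (h x).1 hx
      simpa [gr] using this
  · intro h z
    constructor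
    · intro hz
      have := h (mem_LS_true.2 hz)
      simpa [gr] using this
    · intro hz
      have := h (mem_LS_false.2 hz)
      simpa [gr] using this

theorem LS_finite {G : Set MM} {F : MM} (hT : Tr G F) (hB : BI G) : (LS F).Finite := by
  have i1 : Int1 (fun x => Mem (2 * x + 1) F) := Int1.of_delta0
    (IsDelta0.mem ((IsTerm.var 0).two_mul.add_nat 1) (IsTerm.param F))
  have i0 : Int1 (fun x => Mem (2 * x) F) := Int1.of_delta0
    (IsDelta0.mem (IsTerm.var 0).two_mul (IsTerm.param F))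
  obtain ⟨e1, -, he1⟩ := i1.code F
  obtain ⟨e0, -, he0⟩ := i0.code F
  have f1 : (decode e1).Finite := hB e1 (Or.inl (fun x hx => (hT x).1 ((he1 x).1 hx).2))
  have f0 : (decode e0).Finite := hB e0 (Or.inr (fun x hx => (hT x).2 ((he0 x).1 hx).2))
  have h1 : ((fun x => (x, true)) '' decode e1 : Set (MM × Bool)).Finite := f1.image _
  have h0 : ((fun x => (x, false)) '' decode e0 : Set (MM × Bool)).Finite := f0.image _
  refine (h1.union h0).subset ?_
  rintro ⟨x, b⟩ hx
  cases b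
  · rw [mem_LS_false] at hx
    refine Or.inr ⟨x, (he0 x).2 ⟨?_, hx⟩, rfl⟩
    exact lt_of_le_of_lt (le_two_mul x) (mem_lt hx)
  · rw [mem_LS_true] at hx
    refine Or.inl ⟨x, (he1 x).2 ⟨?_, hx⟩, rfl⟩
    exact lt_of_le_of_lt ((le_two_mul x).trans (le_add_right' _ _)) (mem_lt hx)

theorem gr_consis {G : Set MM} {S : Set (MM × Bool)} (h : S ⊆ gr G) : Consis S := by
  rintro ⟨x, b, h1, h2⟩
  have h3 := h h1
  have h4 := h h2
  cases b <;> simp [gr] at h3 h4 <;> contradiction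

theorem derBI_proof (hJ : DerJoin) (hK : KilStmt) : DerBI := by
  intro φ A G hR hB
  have hφ := hR.1
  obtain ⟨-, -, hK3, -⟩ := hK φ hφ
  ext t
  simp only [Set.mem_ofPred_eq]
  rw [hJ.2 φ A G hR t]
  constructor
  · rintro ⟨l, y, F, hy, hT, hF, hD⟩
    have hfin := LS_finite hT hB
    have hDm := (hK3 l t F).2 ⟨y, hy, hD⟩
    have hS : (hfin.toFinset : Set (MM × Bool)) = LS F := hfin.coe_toFinset
    refine ⟨max l hfin.toFinset.card, hfin.toFinset, ⟨le_max_right _ _, ?_, F, hS, ?_, ?_⟩, ?_⟩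
    · rw [hS]
      exact gr_consis (tr_iff.1 hT)
    · exact hF.trans (aa_mono (le_max_left _ _))
    · intro m
      exact der_mono (aa_mono (le_max_left _ _)) (natCast_le.2 (le_max_left _ _)) (hDm m)
    · rw [hS]
      exact tr_iff.1 hT
  · rintro ⟨l, S, ⟨-, -, F, hRep, hF, hDm⟩, hSG⟩
    obtain ⟨y, hy, hD⟩ := (hK3 l t F).1 hDm
    refine ⟨l, y, F, hy, ?_, hF, hD⟩
    rw [tr_iff]
    have : (S : Set (MM × Bool)) = LS F := hRep
    rw [← this]
    exact hSG

end Pool.Agent.BSig.H6
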